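import Pool.Agent.H306.CK.Main

/-! The theorem for one operator. -/

namespace Pool.Agent.H306.HG

open Set Pool.Agent.H306.CK

open scoped ContDiff

theorem base (σ δ : ℝ) (hσ : σ < 1 / 4) (hδ : 0 < δ) :
    ∃ K : (V → V) → V → V,
      -- `K` is a linear operator on continuous periodic fields
      (∀ v, CP v → CP (K v)) ∧
      (∀ v w, CP v → CP w → ∀ a b : ℝ,
        K (fun x => a • v x + b • w x) = fun x => a • K v x + b • K w x) ∧
      -- with divergence-free values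
      (∀ v, CP v → ∀ φ : V → ℝ, ContDiff ℝ 1 φ → Periodic3 φ →
        inner3 (K v) (fun x i => pd i φ x) = 0) ∧
      -- skew-adjoint
      (∀ v w, CP v → CP w → inner3 (K v) w = -inner3 v (K w)) ∧
      -- a series of smooth skew operators of rank two with rapidly decreasing weights
      (∃ (κ : ℕ → ℝ) (a b : ℕ → V → V), (∀ m, 0 < κ m ∧ κ m ≤ δ * Real.exp (-2 ^ m)) ∧
        (∀ m, Unit3 (a m) ∧ Unit3 (b m)) ∧ ∀ v, CP v → ∀ x i, K v x i =
          ∑' m, κ m * (inner3 (a m) v * b m x i - inner3 (b m) v * a m x i)) ∧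
      -- smoothing of order `σ` and small
      (∀ s : ℝ, ∃ C : ℝ, ∀ v, CP v → hs (s + σ) (K v) ≤ ENNReal.ofReal C * hs s v) ∧
      (∀ s : ℝ, |s| ≤ 1 / δ → ∀ v, CP v → hs (s + σ) (K v) ≤ ENNReal.ofReal δ * hs s v) ∧
      -- all classical solutions conserve the energy
      (∀ (T : ℝ) (u : ℝ → V → V) (p : ℝ → V → ℝ), IsSol K (Ico 0 T) u p →
        ∀ t ∈ Ico 0 T, inner3 (u t) (u t) = inner3 (u 0) (u 0)) ∧
      -- there is a small smooth solution whose vorticity blows up after a short time, and no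
      -- classical solution with the same initial field exists longer
      ∃ (T : ℝ) (u : ℝ → V → V), 0 < T ∧ T ≤ δ ∧
        ContDiffOn ℝ ∞ (fun z : ℝ × V => u z.1 z.2) (Ico 0 T ×ˢ univ) ∧ ContDiff ℝ ∞ (u 0) ∧
        IsSol K (Ico 0 T) u (fun _ _ => 0) ∧
        (∀ t ∈ Ico 0 T, ∀ x i, |u t x i| ≤ δ) ∧
        (∀ M : ℝ, ∃ t ∈ Ico 0 T, ∃ x, M < ‖curl (u t) x‖) ∧
        (∀ (T' : ℝ) (v : ℝ → V → V) (q : ℝ → V → ℝ), 0 < T' → IsSol K (Ico 0 T') v q →
          v 0 = u 0 → T' ≤ T ∧ ∀ t ∈ Ico 0 T', v t = u t) ∧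
        -- but the Euler equations have a global smooth solution with the same initial field
        ∃ w : ℝ → V → V, w 0 = u 0 ∧
          ContDiffOn ℝ ∞ (fun z : ℝ × V => w z.1 z.2) (Ici 0 ×ˢ univ) ∧
          IsSol (fun _ _ => 0) (Ici 0) w (fun _ _ => 0) := by
  obtain ⟨n, N, hn, hN, hδN, h49, hc⟩ := choice hσ hδ
  have a1 : |(-1 : ℝ)| ≤ 1 := by norm_num
  have a0 : |(0 : ℝ)| ≤ 1 := by norm_num
  obtain ⟨hc1, hc2⟩ := hc (-1) 0 0 a1 a0 a0
  have h26 : (0 : ℝ) ≤ 26 := by norm_num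
  have hG : (par n N 26 (-1) 0 0).Good := par_good hn h26 hN a1 a0 a0
  have hF : Fr (par n N 26 (-1) 0 0) (KN n N) := fr_par hn hN
  have hcs := c_summable (r₁ := -1) (r₂ := 0) (r₃ := 0) hn hN
  have hsk : ∀ v w, CP v → CP w → inner3 (KK (par n N 26 (-1) 0 0) (KN n N) v) w =
      -inner3 v (KK (par n N 26 (-1) 0 0) (KN n N) w) := fun v w hv hw =>
    KK_skew hF hG hcs rfl rfl rfl hv hw
  have h0 : ∀ v, CP v → inner3 v (KK (par n N 26 (-1) 0 0) (KN n N) v) = 0 := by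
    intro v hv
    have h1 := hsk v v hv hv
    have h2 := inner_comm v (KK (par n N 26 (-1) 0 0) (KN n N) v)
    linarith
  have hL : Lin (KK (par n N 26 (-1) 0 0) (KN n N)) :=
    Lin_of hF hG hcs fun v hv => (h0 v hv).le
  refine ⟨KK (par n N 26 (-1) 0 0) (KN n N), fun v hv => KK_cp hF hG hcs hv,
    fun v w hv hw a b => KK_comb hF hG hcs hv hw a b,
    fun v hv φ hφ hφp => KK_grad hF hG hcs hv hφ hφp, hsk,
    ⟨kap (par n N 26 (-1) 0 0) (KN n N), qf (KN n N), pf (KN n N), fun m => ?_,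
      fun m => ⟨qf_unit _ m, pf_unit _ m⟩, fun v hv x i => ?_⟩, hc2, hc1,
    fun T u p hu => energy_const hL h0 hu, blowup hn hN a1 a0 a0 hL hδN⟩
  · obtain ⟨h1, h2⟩ := kap_exp hn hN a1 a0 a0 hδN m
    exact ⟨h1, by linarith⟩
  · rw [KK_form hF hG hcs hv]
    refine tsum_congr fun m => ?_
    simp only [cA, cB, par]
    ring

end Pool.Agent.H306.HG
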