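import Pool.Agent.H306.HG.Stm

/-! The regularity statement (by helper52). -/

noncomputable section

namespace Pool.Agent.H306.HG.SREG

open Set MeasureTheory Filter

open scoped Real ContDiff ENNReal ComplexConjugate

open Pool.Agent.H306.CK Pool.Agent.H306.DS

/-- rapid decay of the Fourier integrals -/
def Dec (f : V → ℝ) : Prop := ∀ M : ℝ, ∃ C : ℝ, 0 ≤ C ∧ ∀ k, ‖fc f k‖ ≤ C * W M k

/-- Decay of the Fourier integrals of a field with finite norms. -/
theorem dec_comp {v : V → V} (hv : ∀ s : ℝ, hs s v < ⊤) (i : Fin 3) : Dec (fun x => v x i) := by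
  intro M
  have h1 := hv (-(2 * M))
  set H : ℝ := (hs (-(2 * M)) v).toReal with hH
  have hH0 : 0 ≤ H := ENNReal.toReal_nonneg
  refine ⟨Real.sqrt H, Real.sqrt_nonneg _, fun k => ?_⟩
  have h2 : ENNReal.ofReal (W (-(2 * M)) k * ∑ i, ‖fc (fun x => v x i) k‖ ^ 2) ≤ hs (-(2 * M)) v := by
    rw [hs_def]
    exact ENNReal.le_tsum k
  have h2' : W (-(2 * M)) k * ∑ i, ‖fc (fun x => v x i) k‖ ^ 2 ≤ H :=
    (ENNReal.ofReal_le_iff_le_toReal h1.ne).1 h2
  have hW := W_pos M k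
  have hW3 := W_pos (-(2 * M)) k
  have hW2 : W (-(2 * M)) k * W M k ^ 2 = 1 := by
    rw [sq, ← W_add, ← W_add, show -(2 * M) + (M + M) = 0 by ring, W_zero]
  have h4 : ‖fc (fun x => v x i) k‖ ^ 2 ≤ ∑ j, ‖fc (fun x => v x j) k‖ ^ 2 :=
    Finset.single_le_sum (f := fun j => ‖fc (fun x => v x j) k‖ ^ 2) (fun j _ => sq_nonneg _) (Finset.mem_univ i)
  have h3 : ‖fc (fun x => v x i) k‖ ^ 2 ≤ H * W M k ^ 2 := by
    calc ‖fc (fun x => v x i) k‖ ^ 2 = (W (-(2 * M)) k * W M k ^ 2) * ‖fc (fun x => v x i) k‖ ^ 2 := by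
          rw [hW2, one_mul]
      _ ≤ (W (-(2 * M)) k * W M k ^ 2) * ∑ j, ‖fc (fun x => v x j) k‖ ^ 2 := by
          rw [hW2, one_mul, one_mul]; exact h4
      _ = (W (-(2 * M)) k * ∑ j, ‖fc (fun x => v x j) k‖ ^ 2) * W M k ^ 2 := by ring
      _ ≤ _ := by gcongr
  have h6 : (Real.sqrt H * W M k) ^ 2 = H * W M k ^ 2 := by
    rw [mul_pow, Real.sq_sqrt hH0]
  rw [← h6] at h3
  exact abs_le_of_sq_le_sq h3 (by positivity) |>.trans' (le_abs_self _)

/-- The Fourier series. -/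
def sg (f : V → ℝ) (x : V) : ℝ := ∑' k, tg (((((2 * π) ^ 3)⁻¹ : ℝ) : ℂ) * fc f k) k x

theorem sg_bound {f : V → ℝ} (hf : Dec f) (q : ℕ) : ∃ C : ℝ, ∀ k x,
    ‖iteratedFDeriv ℝ q (tg (((((2 * π) ^ 3)⁻¹ : ℝ) : ℂ) * fc f k) k) x‖ ≤ C * W (-3) k := by
  have hpi := Real.pi_pos
  obtain ⟨C, hC0, hC⟩ := hf (-3 - q)
  refine ⟨3 ^ q * (((2 * π) ^ 3)⁻¹ * C), fun k x => (tg_iter k q _ x).trans ?_⟩
  have hW := W_pos 1 k
  have h1 : W (-3) k = W 1 k ^ q * W (-3 - q) k := by
    have : W 1 k ^ q = W q k := by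
      unfold W
      rw [Real.rpow_one, Real.rpow_natCast]
    rw [this, ← W_add]
    congr 1
    ring
  rw [h1, mul_pow]
  have h2 : ‖((((2 * π) ^ 3)⁻¹ : ℝ) : ℂ) * fc f k‖ ≤ ((2 * π) ^ 3)⁻¹ * (C * W (-3 - q) k) := by
    rw [norm_mul, Complex.norm_real, Real.norm_eq_abs, abs_of_pos (by positivity)]
    gcongr
    exact hC k
  calc 3 ^ q * W 1 k ^ q * ‖((((2 * π) ^ 3)⁻¹ : ℝ) : ℂ) * fc f k‖ ≤
        3 ^ q * W 1 k ^ q * (((2 * π) ^ 3)⁻¹ * (C * W (-3 - q) k)) := by
        gcongr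
    _ = _ := by ring

theorem sg_spf {f : V → ℝ} (hf : Dec f) : SPf (sg f) := by
  constructor
  · choose C hC using fun q => sg_bound hf q
    exact contDiff_tsum (v := fun q k => C q * W (-3) k) (fun k => tg_contDiff _ k)
      (fun q _ => W_summable.mul_left _) (fun q k x _ => hC q k x)
  · intro i x
    unfold sg
    exact tsum_congr fun k => tg_per _ k i x

theorem fc_sg {f : V → ℝ} (hf : Dec f) (l : Fin 3 → ℤ) : fc (sg f) l = fc f l := by
  have hpi := Real.pi_pos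
  obtain ⟨C, hC⟩ := sg_bound hf 0
  have h1 := fc_tsum (g := fun k => tg (((((2 * π) ^ 3)⁻¹ : ℝ) : ℂ) * fc f k) k)
    (fun k => (tg_contDiff _ k).continuous) (W_summable.mul_left C) (fun k x => by
      have := hC k x
      rwa [norm_iteratedFDeriv_zero, Real.norm_eq_abs] at this) l
  simp only [fc_tg] at h1
  set a : (Fin 3 → ℤ) → ℂ := fun k => ((((2 * π) ^ 3)⁻¹ : ℝ) : ℂ) * fc f k with ha
  have h2 : HasSum (fun k => ((2 * π : ℝ) : ℂ) ^ 3 / 2 *
      ((if l = k then a k else 0) + (if l = -k then conj (a k) else 0)))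
      (((2 * π : ℝ) : ℂ) ^ 3 / 2 * (a l + conj (a (-l)))) := by
    refine HasSum.mul_left _ (HasSum.add ?_ ?_)
    · have h3 := hasSum_ite_eq l (a l)
      refine h3.congr_fun fun k => ?_
      by_cases h : l = k
      · subst h; simp
      · rw [if_neg h, if_neg (fun h' => h h'.symm)]
    · have h3 := hasSum_ite_eq (-l) (conj (a (-l)))
      refine h3.congr_fun fun k => ?_
      by_cases h : l = -k
      · subst h; simp
      · rw [if_neg h, if_neg (fun h' => h (by rw [h', neg_neg]))]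
  have h4 : fc (sg f) l = ((2 * π : ℝ) : ℂ) ^ 3 / 2 * (a l + conj (a (-l))) := h1.unique h2
  rw [h4]
  have h5 : conj (a (-l)) = a l := by
    simp only [ha]
    rw [map_mul, Complex.conj_ofReal, fc_conj]
  rw [h5]
  simp only [ha]
  have h6 : ((2 * π : ℝ) : ℂ) ≠ 0 := by
    exact_mod_cast (by positivity : (2 * π : ℝ) ≠ 0)
  push_cast
  push_cast at h6
  field_simp
  ring

theorem smooth_comp {f : V → ℝ} (hc : Continuous f) (hp : Periodic3 f) (hf : Dec f) : SPf f := by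
  have h1 : sg f = f := fc_inj (sg_spf hf).cont hc (sg_spf hf).2 hp fun k => fc_sg hf k
  rw [← h1]
  exact sg_spf hf

theorem reg : S_REG := by
  intro v hv hs hw
  have hcomp : ∀ i, SPf (fun x => v x i) := fun i =>
    smooth_comp (hv.comp_continuous i) (fun j x => congrFun (hv.2 j x) i) (dec_comp hs i)
  have hsp : SP v := ⟨contDiff_pi.2 fun i => (hcomp i).1, hv.2⟩
  refine ⟨hsp.1, hsp.2, ?_⟩
  set D : V → ℝ := fun x => ∑ i, pd i (fun y => v y i) x with hD
  have hDs : SPf D := ⟨ContDiff.sum fun i _ => ((hcomp i).pd i).1,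
    fun j x => Finset.sum_congr rfl fun i _ => ((hcomp i).pd i).2 j x⟩
  have h1 := hw D hDs.c1 hDs.2
  have h2 := div_int (F := fun x i => v x i * D x)
    (contDiff_pi.2 fun i => (hcomp i).c1.mul hDs.c1)
    (fun j x => by
      funext i
      show v (x + Pi.single j (2 * π)) i * D (x + Pi.single j (2 * π)) = v x i * D x
      rw [hv.2 j x, hDs.2 j x])
  have h3 : ∀ x, ∑ i, pd i (fun y => v y i * D y) x = (∑ i, v x i * pd i D x) + D x * D x := by
    intro x
    have e1 : ∀ i, pd i (fun y => v y i * D y) x = v x i * pd i D x + D x * pd i (fun y => v y i) x := fun i =>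
      pd_mul (hcomp i).c1 hDs.c1 i x
    rw [Finset.sum_congr rfl fun i _ => e1 i, Finset.sum_add_distrib, ← Finset.mul_sum]
  have h4 : ∫ x in torus, ((∑ i, v x i * pd i D x) + D x * D x) = 0 := by
    rw [← h2]
    exact integral_congr_ae (Eventually.of_forall fun x => (h3 x).symm)
  have h5 : ∫ x in torus, ((∑ i, v x i * pd i D x) + D x * D x) =
      (∫ x in torus, ∑ i, v x i * pd i D x) + ∫ x in torus, D x * D x :=
    integral_add (cont_int (continuous_finsetSum _ fun i _ => (hcomp i).cont.mul (hDs.pd i).cont))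
      (cont_int (hDs.cont.mul hDs.cont))
  have h6 : ∫ x in torus, ∑ i, v x i * pd i D x = 0 := h1
  rw [h5, h6, zero_add] at h4
  intro x
  have h7 := eq_zero_of_int (hDs.cont.mul hDs.cont) (fun x => mul_self_nonneg (D x))
    (fun j x => by
      show D (x + Pi.single j (2 * π)) * D (x + Pi.single j (2 * π)) = D x * D x
      rw [hDs.2 j x]) h4 x
  exact mul_self_eq_zero.1 h7

end Pool.Agent.H306.HG.SREG
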