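import Pool.Agent.H306.HF.Stm

/-! Dilation of solutions. -/

set_option autoImplicit false

noncomputable section

namespace Pool.Agent.H306.HG.Scale

open Set MeasureTheory

open scoped Real ContDiff ENNReal

open Pool.Agent.H306.CK Pool.Agent.H306.DS Pool.Agent.H306.HD Pool.Agent.H306.HF

theorem Dp_eq (p : ℕ) (v : V → V) (x : V) : Dp p v x = (1 / p : ℝ) • v ((p : ℝ) • x) := rfl

/-- the chain rule -/
theorem pd_chain {p : ℕ} (hp : 1 ≤ p) (j i : Fin 3) (v : V → V) (x : V) :
    pd j (fun y => Dp p v y i) x = pd j (fun y => v y i) ((p : ℝ) • x) := by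
  have hp0 : (p : ℝ) ≠ 0 := by
    have : p ≠ 0 := by omega
    exact_mod_cast this
  have e : (fun y => Dp p v y i) = (1 / p : ℝ) • fun y : V => (fun z : V => v z i) ((p : ℝ) • y) := rfl
  have e2 : fderiv ℝ (fun y : V => (fun z : V => v z i) ((p : ℝ) • y)) x =
      (p : ℝ) • fderiv ℝ (fun z : V => v z i) ((p : ℝ) • x) :=
    fderiv_comp_smul (f := fun z : V => v z i) (p : ℝ)
  unfold pd
  rw [e, fderiv_const_smul_field, Pi.smul_apply, e2, smul_smul, one_div, inv_mul_cancel₀ hp0,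
    one_smul]

theorem per_nat {F : Type} {f : V → F} (hf : Periodic3 f) (n : ℕ) (i : Fin 3) (x : V) :
    f (x + (n : ℝ) • Pi.single i (2 * Real.pi)) = f x := by
  induction n generalizing x with
  | zero => rw [Nat.cast_zero, zero_smul, add_zero]
  | succ n ih =>
    rw [Nat.cast_succ, add_smul, one_smul, ← add_assoc, hf i, ih]

theorem Dp_per (p : ℕ) {v : V → V} (hv : Periodic3 v) : Periodic3 (Dp p v) := by
  intro i x
  rw [Dp_eq, Dp_eq, smul_add, per_nat hv]

theorem Dp_cd (p : ℕ) (n : WithTop ℕ∞) (I : Set ℝ) (u : ℝ → V → V)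
    (hu : ContDiffOn ℝ n (fun z : ℝ × V => u z.1 z.2) (I ×ˢ univ)) :
    ContDiffOn ℝ n (fun z : ℝ × V => Dp p (u z.1) z.2) (I ×ˢ univ) := by
  have hg : ContDiff ℝ n (fun z : ℝ × V => ((z.1, (p : ℝ) • z.2) : ℝ × V)) :=
    contDiff_fst.prodMk (contDiff_snd.const_smul (p : ℝ))
  have h1 : ContDiffOn ℝ n (fun z : ℝ × V => u z.1 ((p : ℝ) • z.2)) (I ×ˢ univ) := by
    refine hu.comp (g := fun z : ℝ × V => u z.1 z.2)
      (f := fun z : ℝ × V => ((z.1, (p : ℝ) • z.2) : ℝ × V)) hg.contDiffOn ?_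
    intro z hz
    exact ⟨hz.1, mem_univ _⟩
  have h2 := h1.const_smul (1 / p : ℝ)
  exact h2

theorem sol {p : ℕ} (hp : 1 ≤ p) (A A' : (V → V) → V → V) (I : Set ℝ) (u : ℝ → V → V)
    (hu : IsSol A I u (fun _ _ => 0)) (hA : ∀ t ∈ I, A' (Dp p (u t)) = Dp p (A (u t))) :
    IsSol A' I (fun t => Dp p (u t)) (fun _ _ => 0) := by
  have hp0 : (p : ℝ) ≠ 0 := by
    have : p ≠ 0 := by omega
    exact_mod_cast this
  · refine ⟨Dp_cd p 1 I u hu.c1_u, contDiffOn_const, fun t ht => Dp_per p (hu.per_u t ht),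
      fun t ht i x => rfl, fun t ht x => ?_, fun t ht x i => ?_⟩
    · have h := hu.div_free t ht ((p : ℝ) • x)
      rw [← h]
      exact Finset.sum_congr rfl fun i _ => pd_chain hp i i (u t) x
    · have h := hu.momentum t ht ((p : ℝ) • x) i
      rw [hA t ht]
      have e0 : Dp p (A (u t)) x i = (1 / p : ℝ) * A (u t) ((p : ℝ) • x) i := rfl
      rw [e0, ← h]
      have e1 : derivWithin (fun s => Dp p (u s) x i) I t =
          (1 / p : ℝ) * derivWithin (fun s => u s ((p : ℝ) • x) i) I t := by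
        have e2 : (fun s => Dp p (u s) x i) = (1 / p : ℝ) • fun s => u s ((p : ℝ) • x) i := rfl
        rw [e2, derivWithin, fderivWithin_const_smul_field']
        rfl
      have e3 : ∑ j, Dp p (u t) x j * pd j (fun y => Dp p (u t) y i) x =
          (1 / p : ℝ) * ∑ j, u t ((p : ℝ) • x) j * pd j (fun y => u t y i) ((p : ℝ) • x) := by
        rw [Finset.mul_sum]
        refine Finset.sum_congr rfl fun j _ => ?_
        rw [pd_chain hp]
        have e4 : Dp p (u t) x j = (1 / p : ℝ) * u t ((p : ℝ) • x) j := rfl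
        rw [e4, mul_assoc]
      have e5 : ∀ z : V, pd i (fun _ : V => (0 : ℝ)) z = 0 := by
        intro z
        unfold pd
        rw [fderiv_const_apply]
        rfl
      rw [e1, e3]
      have e6 := e5 x
      have e7 := e5 ((p : ℝ) • x)
      rw [e6, e7]
      ring

end Pool.Agent.H306.HG.Scale
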