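import Pool.Agent.H306.HG.Base
import Pool.Agent.H306.HG.SREG
import Pool.Agent.H306.HG.Scale
import Pool.Agent.H306.HF.SF1
import Pool.Agent.H306.HF.SF2
import Pool.Agent.H306.HF.SSD
import Pool.Agent.H306.HF.SSH
import Pool.Agent.H306.HF.SSI
import Pool.Agent.H306.HF.SPD
import Pool.Agent.H306.HF.SLB
import Pool.Agent.H306.HF.SLD
import Pool.Agent.H306.HD.Asm6

/-! The Euler equations: operators with blow-up are dense near every skew-adjoint operator. -/

noncomputable section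

namespace Pool.Agent.H306.HG

open Set MeasureTheory

open scoped Real ContDiff ENNReal

open Pool.Agent.H306.CK Pool.Agent.H306.DS Pool.Agent.H306.HD Pool.Agent.H306.HD.Asm
  Pool.Agent.H306.HF

/-- The dilated operator. -/
def Kd (p : ℕ) (K : (V → V) → V → V) (v : V → V) : V → V := sc p (K (ds p v))

theorem smul_eq (c : ℝ) (v : V → V) : (fun x i => c * v x i) = fun x i => c * v x i + 0 * v x i := by
  ext x i
  ring

theorem smul_sf {v : V → V} (hv : SF v) (c : ℝ) : SF (fun x i => c * v x i) := by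
  rw [smul_eq]
  exact comb_sf hv hv c 0

theorem Dp_eq' (p : ℕ) (v : V → V) : Dp p v = sc p (fun x i => (1 / p : ℝ) * v x i) := rfl

/-- Energy conservation. -/
theorem energy_eqS {K : (V → V) → V → V} {T : ℝ} {u : ℝ → V → V} {p : ℝ → V → ℝ} (hK : LinS K)
    (h0 : ∀ v, SF v → inner3 v (K v) = 0) (hu : IsSol K (Ico 0 T) u p)
    (hus : ∀ t ∈ Ico 0 T, SF (u t)) : ∀ t ∈ Ico 0 T, inner3 (u t) (u t) = inner3 (u 0) (u 0) := by
  intro t ht
  rcases ht.1.eq_or_lt with h | hlt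
  · rw [← h]
  have hc : ContinuousOn (fun s => inner3 (u s) (u s)) (Icc 0 t) :=
    (energy_continuousOn hu).mono fun r hr => ⟨hr.1, hr.2.trans_lt ht.2⟩
  have hd : DifferentiableOn ℝ (fun s => inner3 (u s) (u s)) (Ioo 0 t) := fun r hr =>
    (energy_derivS hK hu hus ⟨hr.1, hr.2.trans ht.2⟩).differentiableAt.differentiableWithinAt
  obtain ⟨r, hr, h1⟩ := exists_deriv_eq_slope _ hlt hc hd
  have hrT : r ∈ Ioo 0 T := ⟨hr.1, hr.2.trans ht.2⟩
  rw [(energy_derivS hK hu hus hrT).deriv, h0 _ (hus r (Ioo_subset_Ico_self hrT)), mul_zero] at h1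
  have h4 : 0 < t - 0 := by linarith
  rw [eq_div_iff h4.ne', zero_mul] at h1
  linarith

theorem main (σ σ' δ : ℝ) (hσ : σ < 1 / 4) (hσ' : σ < σ') (hδ : 0 < δ) (L : (V → V) → V → V)
    (hL : ∀ v, SF v → SF (L v))
    (hL1 : ∀ v w, SF v → SF w → ∀ a b : ℝ,
      L (fun x i => a * v x i + b * w x i) = fun x i => a * L v x i + b * L w x i)
    (hL2 : ∀ c : V, L (fun _ => c) = fun _ _ => 0)
    (hL3 : ∀ S : ℝ, ∃ C : ℝ, ∀ s : ℝ, |s| ≤ S → ∀ v, SF v →
      hs (s + σ') (L v) ≤ ENNReal.ofReal C * hs s v)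
    (hL4 : ∀ v w, SF v → SF w → inner3 (L v) w = -inner3 v (L w)) :
    ∃ K : (V → V) → V → V,
      (∀ v, SF v → SF (K v)) ∧
      (∀ v w, SF v → SF w → ∀ a b : ℝ,
        K (fun x i => a * v x i + b * w x i) = fun x i => a * K v x i + b * K w x i) ∧
      (∀ v w, SF v → SF w → inner3 (K v) w = -inner3 v (K w)) ∧
      (∀ s : ℝ, ∃ C : ℝ, ∀ v, SF v →
        hs (s + σ) (fun x i => K v x i - L v x i) ≤ ENNReal.ofReal C * hs s v) ∧
      (∀ s : ℝ, |s| ≤ 1 / δ → ∀ v, SF v →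
        hs (s + σ) (fun x i => K v x i - L v x i) ≤ ENNReal.ofReal δ * hs s v) ∧
      (∀ (T : ℝ) (u : ℝ → V → V) (p : ℝ → V → ℝ), IsSol K (Ico 0 T) u p →
        (∀ t ∈ Ico 0 T, SF (u t)) → ∀ t ∈ Ico 0 T, inner3 (u t) (u t) = inner3 (u 0) (u 0)) ∧
      ∃ (T : ℝ) (u : ℝ → V → V), 0 < T ∧ T ≤ δ ∧
        ContDiffOn ℝ ∞ (fun z : ℝ × V => u z.1 z.2) (Ico 0 T ×ˢ univ) ∧
        IsSol K (Ico 0 T) u (fun _ _ => 0) ∧
        (∀ t ∈ Ico 0 T, SF (u t)) ∧
        (∀ t ∈ Ico 0 T, ∀ x i, |u t x i| ≤ δ) ∧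
        (∀ M : ℝ, ∃ t ∈ Ico 0 T, ∃ x, M < ‖curl (u t) x‖) ∧
        (∀ (T' : ℝ) (v : ℝ → V → V) (q : ℝ → V → ℝ), IsSol K (Ico 0 T') v q →
          (∀ t ∈ Ico 0 T', SF (v t)) → v 0 = u 0 → T' ≤ T ∧ ∀ t ∈ Ico 0 T', v t = u t) ∧
        ∃ w : ℝ → V → V, w 0 = u 0 ∧
          ContDiffOn ℝ ∞ (fun z : ℝ × V => w z.1 z.2) (Ici 0 ×ˢ univ) ∧
          IsSol (fun _ _ => 0) (Ici 0) w (fun _ _ => 0) := by
  have hL0 : ∀ v, SF v → inner3 v (L v) = 0 := by
    intro v hv
    have h1 := hL4 v v hv hv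
    have h2 := inner_comm v (L v)
    linarith
  have hLO : LO σ' L := ⟨hL, hL1, hL2, hL3, fun v hv => (hL0 v hv).le⟩
  obtain ⟨hLB1, hLB2⟩ := SLB.lb σ σ' L hσ' hLO
  obtain ⟨p₁, hp₁⟩ := hLB1 (1 / δ) (δ / 4) (by positivity)
  set p : ℕ := p₁ + 1 with hp
  have hp1 : 1 ≤ p := by omega
  have hpR : (1 : ℝ) ≤ p := by exact_mod_cast hp1
  have hp0 : (0 : ℝ) < p := by linarith
  have hR1 := hp₁ p (by omega)
  have hsd := SSD.sd SF1.f1 SF2.f2 p hp1
  have hsh := SSH.sh SF1.f1 SF2.f2 p hp1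
  have hsi := SSI.si SF1.f1 SF2.f2 p hp1
  have hpd := SPD.spd p hp1
  obtain ⟨hq1, hq2, hq3, hq4⟩ := SLD.ld SF1.f1 σ' L hLO p hp1
  have hqv := SLD.Mb_qv p
  -- the parameters
  set A : ℝ := (p : ℝ) ^ (2 * (1 / δ + |σ|)) * (p : ℝ) ^ (2 * (1 / δ)) with hA
  have hA1 : 1 ≤ A := by
    rw [hA]
    have h1 : (1 : ℝ) ≤ (p : ℝ) ^ (2 * (1 / δ + |σ|)) :=
      Real.one_le_rpow hpR (by positivity)
    have h2 : (1 : ℝ) ≤ (p : ℝ) ^ (2 * (1 / δ)) := Real.one_le_rpow hpR (by positivity)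
    nlinarith
  have hA0 : 0 < A := by linarith
  set δ' : ℝ := min (δ / (4 * A)) δ with hδ'
  have hδ'0 : 0 < δ' := lt_min (by positivity) hδ
  have hδ'1 : A * δ' ≤ δ / 4 := by
    have h1 : δ' ≤ δ / (4 * A) := min_le_left _ _
    rw [le_div_iff₀ (by positivity)] at h1
    linarith
  have hδδ : δ' ≤ δ := min_le_right _ _
  have hinv : 1 / δ ≤ 1 / δ' := one_div_le_one_div_of_le hδ'0 hδδ
  obtain ⟨K, hKcp, hKlin, hKdiv, hKskew, -, hKb, hKs, -, T, u, hT, hTδ, hus, hu0s, husol, hubd,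
    hunb, -, w, hw0, hws, hwsol⟩ := base σ δ' hσ hδ'0
  have hKsf : ∀ v, SF v → SF (K v) := by
    intro v hv
    refine SREG.reg (K v) (hKcp v hv.cp) (fun s => ?_) fun φ h1 h2 => hKdiv v hv.cp φ h1 h2
    obtain ⟨C, hC⟩ := hKb (s - σ)
    have h1 := hC v hv.cp
    rw [sub_add_cancel] at h1
    exact h1.trans_lt (ENNReal.mul_lt_top ENNReal.ofReal_lt_top (hs_lt_top hv.sp _))
  have hKl : ∀ v w, SF v → SF w → ∀ a b : ℝ,
      K (fun x i => a * v x i + b * w x i) = fun x i => a * K v x i + b * K w x i := by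
    intro v w hv hw a b
    have h := hKlin v w hv.cp hw.cp a b
    exact h
  have hKsm : ∀ (c : ℝ) v, SF v → K (fun x i => c * v x i) = fun x i => c * K v x i := by
    intro c v hv
    rw [smul_eq, hKl v v hv hv c 0]
    ext x i
    ring
  have husf : ∀ t ∈ Ico 0 T, SF (u t) := by
    intro t ht
    refine ⟨?_, husol.per_u t ht, husol.div_free t ht⟩
    have h1 : ContDiff ℝ ∞ (fun x : V => ((t, x) : ℝ × V)) := contDiff_const.prodMk contDiff_id
    have h2 := hus.comp (f := fun x : V => ((t, x) : ℝ × V)) (s := univ) h1.contDiffOn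
      (fun x _ => ⟨ht, mem_univ _⟩)
    exact contDiffOn_univ.1 h2
  have kpsf : ∀ v, SF v → SF (Kd p K v) := fun v hv => (hsd.1 _ (hKsf _ (hsd.1 v hv).2.1)).1
  have kplin : ∀ v w, SF v → SF w → ∀ a b : ℝ,
      Kd p K (fun x i => a * v x i + b * w x i) = fun x i => a * Kd p K v x i + b * Kd p K w x i := by
    intro v w hv hw a b
    unfold Kd
    rw [hsd.2 v w hv hw a b, hKl _ _ (hsd.1 v hv).2.1 (hsd.1 w hw).2.1]
    rfl
  have kpskew : ∀ v w, SF v → SF w → inner3 (Kd p K v) w = -inner3 v (Kd p K w) := by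
    intro v w hv hw
    unfold Kd
    rw [inner_comm, hsi.1 w _ hw.sp (hKsf _ (hsd.1 v hv).2.1).sp,
      hsi.1 v _ hv.sp (hKsf _ (hsd.1 w hw).2.1).sp, inner_comm,
      hKskew _ _ (hsd.1 v hv).2.1.cp (hsd.1 w hw).2.1.cp]
  have qskew : ∀ v w, SF v → SF w → inner3 (QQ p L v) w = -inner3 v (QQ p L w) := by
    intro v w hv hw
    have c1 := MG_sf hqv hv
    have c2 := MG_sf hqv hw
    unfold QQ
    rw [← SLD.inner_MG hqv (hL _ c1).sp hw.sp, hL4 _ _ c1 c2,
      SLD.inner_MG hqv hv.sp (hL _ c2).sp]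
  -- bounds of `Kd`
  have kphs : ∀ (s C : ℝ), (∀ v, SF v → hs (s + σ) (K v) ≤ ENNReal.ofReal C * hs s v) →
      ∀ v, SF v → hs (s + σ) (Kd p K v) ≤
        ENNReal.ofReal ((p : ℝ) ^ (2 * |s + σ|)) * (ENNReal.ofReal C *
          (ENNReal.ofReal ((p : ℝ) ^ (2 * |s|)) * hs s v)) := by
    intro s C h v hv
    have h1 := (hsh (s + σ) (K (ds p v)) (hKsf _ (hsd.1 v hv).2.1).sp).1
    have h2 := h _ (hsd.1 v hv).2.1
    have h3 := (hsh s v hv.sp).2
    refine h1.trans ?_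
    gcongr
    refine h2.trans ?_
    gcongr
  -- the operator
  set KT : (V → V) → V → V := fun v x i => Kd p K v x i + QQ p L v x i with hKT
  have ktadd : ∀ v, KT v = fun x i => 1 * Kd p K v x i + 1 * QQ p L v x i := by
    intro v
    ext x i
    simp only [hKT]
    ring
  have ktsf : ∀ v, SF v → SF (KT v) := by
    intro v hv
    rw [ktadd]
    exact comb_sf (kpsf v hv) (hq1 v hv) 1 1
  have ktlin : ∀ v w, SF v → SF w → ∀ a b : ℝ,
      KT (fun x i => a * v x i + b * w x i) = fun x i => a * KT v x i + b * KT w x i := by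
    intro v w hv hw a b
    ext x i
    simp only [hKT]
    rw [kplin v w hv hw, hq2 v w hv hw]
    ring
  have ktskew : ∀ v w, SF v → SF w → inner3 (KT v) w = -inner3 v (KT w) := by
    intro v w hv hw
    rw [ktadd, ktadd, inner_comm, inner_comb' (kpsf v hv).cp (hq1 v hv).cp hw.cp,
      inner_comb' (kpsf w hw).cp (hq1 w hw).cp hv.cp, inner_comm w, kpskew v w hv hw,
      inner_comm w, qskew v w hv hw]
    ring
  have kt0 : ∀ v, SF v → inner3 v (KT v) = 0 := by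
    intro v hv
    have h1 := ktskew v v hv hv
    have h2 := inner_comm v (KT v)
    linarith
  have kteq : ∀ v, (fun x i => KT v x i - L v x i) = fun x => Kd p K v x + RL p L v x := by
    intro v
    ext x i
    simp only [hKT, RL, Pi.add_apply]
    ring
  have rlsf : ∀ v, SF v → SF (RL p L v) := by
    intro v hv
    have h := comb_sf (hq1 v hv) (hL v hv) 1 (-1)
    have e : (fun x i => 1 * QQ p L v x i + -1 * L v x i) = RL p L v := by
      ext x i
      simp only [RL]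
      ring
    rwa [e] at h
  have hLin : LinS KT := by
    refine ⟨fun v w hv hw => ?_, fun v hv => (ktsf v hv).cp.1, fun v hv => (kt0 v hv).le⟩
    have h2 : (fun x i => 1 * v x i + -1 * w x i) = v - w := by
      ext x i
      simp only [Pi.sub_apply]
      ring
    have h4 := ktlin v w hv hw 1 (-1)
    rw [h2] at h4
    rw [h4]
    ext x i
    simp only [Pi.sub_apply]
    ring
  -- the solution
  have hcomm : ∀ v, SF v → KT (Dp p v) = Dp p (K v) := by
    intro v hv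
    have hw := smul_sf hv (1 / p : ℝ)
    have h3 : Kd p K (Dp p v) = sc p (fun x i => (1 / p : ℝ) * K v x i) := by
      unfold Kd
      rw [Dp_eq', (hsd.1 _ hw).2.2, hKsm _ v hv]
    have h4 : QQ p L (Dp p v) = fun _ _ => 0 := by
      rw [Dp_eq']
      exact hq4 _ hw
    ext x i
    simp only [hKT]
    rw [h3, h4]
    simp only [Dp, sc]
    ring
  have hsol' : IsSol KT (Ico 0 T) (fun t => Dp p (u t)) (fun _ _ => 0) :=
    hpd.1 K KT T u husol fun t ht => hcomm (u t) (husf t ht)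
  have husf' : ∀ t ∈ Ico 0 T, SF (Dp p (u t)) := fun t ht => by
    rw [Dp_eq']
    exact (hsd.1 _ (smul_sf (husf t ht) _)).1
  have hunb' : ∀ M : ℝ, ∃ t ∈ Ico 0 T, ∃ x, M < ‖curl (Dp p (u t)) x‖ := by
    intro M
    obtain ⟨t, ht, x, hx⟩ := hunb M
    refine ⟨t, ht, fun j => x j / p, ?_⟩
    rwa [hpd.2.2 (u t) ((husf t ht).1.of_le (by exact_mod_cast le_top)) x]
  refine ⟨KT, ktsf, ktlin, ktskew, fun s => ?_, fun s hs' v hv => ?_,
    fun T' u' p' hu' hus' => energy_eqS hLin kt0 hu' hus', T, fun t => Dp p (u t), hT,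
    hTδ.trans hδδ, hpd.2.1 T u hus, hsol', husf', fun t ht x i => ?_, hunb',
    fun T' v q hv hvs h0 => maximal hLin hsol' husf' hunb' hv hvs h0, fun t => Dp p (w t), ?_,
    Scale.Dp_cd p ∞ (Ici 0) w hws, Scale.sol hp1 _ _ (Ici 0) w hwsol fun t _ => ?_⟩
  · obtain ⟨C, hC⟩ := hKb s
    obtain ⟨C', hC'0, hC'⟩ := hLB2 p s hp1
    refine ⟨2 * ((p : ℝ) ^ (2 * |s + σ|) * (max C 0 * (p : ℝ) ^ (2 * |s|))) + 2 * C', fun v hv => ?_⟩
    rw [kteq]
    refine (hs_add (kpsf v hv).cp (rlsf v hv).cp).trans ?_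
    have h1 := kphs s (max C 0) (fun v hv => (hC v hv.cp).trans (by gcongr; exact le_max_left _ _))
      v hv
    have h2 := hC' v hv
    have hm : 0 ≤ max C 0 := le_max_right _ _
    calc 2 * hs (s + σ) (Kd p K v) + 2 * hs (s + σ) (RL p L v) ≤
        2 * (ENNReal.ofReal ((p : ℝ) ^ (2 * |s + σ|)) * (ENNReal.ofReal (max C 0) *
          (ENNReal.ofReal ((p : ℝ) ^ (2 * |s|)) * hs s v))) +
          2 * (ENNReal.ofReal C' * hs s v) := by gcongr
      _ = _ := by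
        rw [ENNReal.ofReal_add (by positivity) (by positivity),
          ENNReal.ofReal_mul (p := 2) (by norm_num), ENNReal.ofReal_mul (p := 2) (by norm_num),
          ENNReal.ofReal_mul (by positivity), ENNReal.ofReal_mul hm, add_mul]
        simp only [ENNReal.ofReal_ofNat]
        ring
  · rw [kteq]
    refine (hs_add (kpsf v hv).cp (rlsf v hv).cp).trans ?_
    have h1 := kphs s δ' (fun v hv => hKs s (hs'.trans hinv) v hv.cp) v hv
    have h2 := hR1 s hs' v hv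
    have h3 : (p : ℝ) ^ (2 * |s + σ|) * (δ' * (p : ℝ) ^ (2 * |s|)) ≤ δ / 4 := by
      refine le_trans ?_ hδ'1
      have e1 : (p : ℝ) ^ (2 * |s + σ|) ≤ (p : ℝ) ^ (2 * (1 / δ + |σ|)) := by
        refine Real.rpow_le_rpow_of_exponent_le hpR ?_
        have := abs_add_le s σ
        linarith
      have e2 : (p : ℝ) ^ (2 * |s|) ≤ (p : ℝ) ^ (2 * (1 / δ)) :=
        Real.rpow_le_rpow_of_exponent_le hpR (by linarith)
      calc (p : ℝ) ^ (2 * |s + σ|) * (δ' * (p : ℝ) ^ (2 * |s|)) ≤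
          (p : ℝ) ^ (2 * (1 / δ + |σ|)) * (δ' * (p : ℝ) ^ (2 * (1 / δ))) := by gcongr
        _ = A * δ' := by rw [hA]; ring
    have h4 : ENNReal.ofReal ((p : ℝ) ^ (2 * |s + σ|)) * (ENNReal.ofReal δ' *
        (ENNReal.ofReal ((p : ℝ) ^ (2 * |s|)) * hs s v)) ≤ ENNReal.ofReal (δ / 4) * hs s v := by
      rw [← mul_assoc, ← mul_assoc, ← ENNReal.ofReal_mul (by positivity),
        ← ENNReal.ofReal_mul (by positivity), mul_assoc ((p : ℝ) ^ (2 * |s + σ|))]
      gcongr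
    calc 2 * hs (s + σ) (Kd p K v) + 2 * hs (s + σ) (RL p L v) ≤
        2 * (ENNReal.ofReal (δ / 4) * hs s v) + 2 * (ENNReal.ofReal (δ / 4) * hs s v) := by
          gcongr
          exact h1.trans h4
      _ = ENNReal.ofReal δ * hs s v := by
        have e : ENNReal.ofReal δ = 4 * ENNReal.ofReal (δ / 4) := by
          rw [← ENNReal.ofReal_ofNat, ← ENNReal.ofReal_mul (by norm_num)]
          congr 1
          ring
        rw [e]
        ring
  · simp only [Dp]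
    rw [abs_mul, abs_of_pos (by positivity)]
    have h1 := hubd t ht (fun j => p * x j) i
    have h2 : (1 : ℝ) / p ≤ 1 := by
      rw [div_le_one hp0]
      exact hpR
    calc 1 / (p : ℝ) * |u t (fun j => p * x j) i| ≤ 1 * δ' := by gcongr
      _ ≤ δ := by linarith
  · simp only
    rw [hw0]
  · ext x i
    simp [Dp]

end Pool.Agent.H306.HG
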