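import Pool.Agent.H306.DS.Hs2
import Pool.Agent.H306.DS.Frac

/-! A regularity statement. -/

noncomputable section

namespace Pool.Agent.H306.HG

open Set MeasureTheory

open scoped Real ContDiff ENNReal

open Pool.Agent.H306.CK Pool.Agent.H306.DS

/-- A continuous periodic field with finite norms in all `H^s` which is weakly divergence free is smooth and divergence free.

Proof. For a component `f = v · i`: `hs s v < ⊤` gives `W s k * ‖fc f k‖² ≤ (hs s v).toReal` for all `k`, so for every `M` there is `C` with
`‖fc f k‖ ≤ C * W M k` (`s = -2M`, `W s k = W (s/2) k ^ 2`). Let `g x = ∑' k, tg ((2π)⁻³ * fc f k) k x`. As in `mg_bound`, `mg_spf` of `DS.Frac` (with this decay in place of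
`fc_decay`; `tg_iter`, `W_summable`, `contDiff_tsum`) `g` is smooth and periodic, and as in `fc_mg` (`fc_tsum`, `fc_tg`, `fc_conj`) `fc g k = fc f k`; so `g = f` by `fc_inj`
(`f` is continuous and periodic). Divergence: let `D x = ∑ i, pd i (fun y => v y i) x` (smooth, periodic). Integration by parts (`int_pd` in `DS.Hs` applied to `v_i D`) gives
`0 = inner3 v (∇ D) = -∫ D²`, so `D = 0` (`eq_zero_of_int`, used in the proof of `fc_inj`). -/
def S_REG : Prop := ∀ v : V → V, CP v → (∀ s : ℝ, hs s v < ⊤) →
  (∀ φ : V → ℝ, ContDiff ℝ 1 φ → Periodic3 φ → inner3 v (fun x i => pd i φ x) = 0) → SF v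

end Pool.Agent.H306.HG
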